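import Pool.Agent.NH28.EL.Sec
import Pool.Agent.NH28.EL.CUR
import Pool.Agent.NH28.EL.Dfs

set_option autoImplicit false

/-!
# MP_3dbb84_gt, Q1: exact Lagrangian submanifolds of the cotangent bundle of a compact flat manifold with
`osc(p) max |A| < 2`

Let `N = ℝⁿ / Γ` be any compact flat manifold, let `L` be a closed exact Lagrangian submanifold of `T*N`, let
`K` be a bound for its second fundamental form with respect to the flat metric of `T*N`, and let `δ` be a
bound for the differences of the momenta `p` of the points of the preimage of `L` in `ℝⁿ × ℝⁿ`. If `K δ < 2`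
then `L` is the graph of an exact form, in particular the image of the zero section under a symplectic
diffeomorphism. So every counterexample to Arnold's conjecture over a compact flat manifold satisfies
`osc(p) max |A| ≥ 2`. (The constant `2` is the best possible one for the conclusion that `L` is a graph: a
closed curve in `T*S¹` can contain two quarter circles of radius `1 / K` with a vertical inflection tangent in
the middle, with `osc(p) = 2 / K`. This is not formalised.)

The proof. Suppose that `(0, w)`, `‖w‖ = 1`, is tangent to `L` at `z`. Along the geodesic `c` of `L` with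
this initial velocity the angle between `c'(t)` and `(0, w)` is at most `K |t|`, so that `⟪p, w⟫` grows by
at least `∫ cos(K t) dt = 2 / K` between `t = -π / (2 K)` and `t = π / (2 K)`, a contradiction. So `L` is
transverse to the fibres. If two different points of `L` are over the same point of `N`, the difference
of the values of a primitive of `p dq` on `L` at such pairs has a maximum, and there the two points
are equal, a contradiction.

All definitions are in `Pool.Agent.NH28.EL.Dfs`.
-/

namespace Pool.Agent.Results.MP_3dbb84_gt.BoundedCurvature

open Pool.Agent.NH28.EL.D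

/-- Let `Λ` be the preimage in `ℝⁿ × ℝⁿ` of a closed exact Lagrangian submanifold `L` of the cotangent bundle
of the compact flat manifold `ℝⁿ / Γ`, with second fundamental form bounded by `K` and `‖p - p'‖ ≤ δ` for all
points `(q, p)`, `(q', p')` of `Λ`. If `K δ < 2` then `L` is the graph of an exact form, and the image of the
zero section under a symplectic diffeomorphism. -/
theorem result {n : ℕ} (Γ : Grp n) (hΓ : IsFlat Γ) (Λ : Set (T n)) (hΛ : IsLagrangian Γ Λ)
    (hE : IsExact Γ Λ) (K δ : ℝ) (hK : 0 ≤ K) (hC : HasCurvatureLE Λ K)
    (hδ : ∀ z ∈ Λ, ∀ z' ∈ Λ, ‖z.2 - z'.2‖ ≤ δ) (hKδ : K * δ < 2) : IsGraph Γ Λ ∧ IsImage Γ Λ := by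
  have ht := Pool.Agent.NH28.EL.t_CUR n Λ K δ hK (curvature hC) hδ hKδ
  exact ⟨graph (Pool.Agent.NH28.EL.graph_of_transverse (flat hΓ) (lagrangian hΛ) (exact hE) ht),
    image (Pool.Agent.NH28.EL.t_CORE n Γ (flat hΓ) Λ (lagrangian hΛ) (exact hE) ht)⟩

end Pool.Agent.Results.MP_3dbb84_gt.BoundedCurvature
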