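import Pool.Agent.NH28.EL.Sec
import Pool.Agent.NH28.EL.Loc
import Pool.Agent.NH28.EL.Dfs

set_option autoImplicit false

/-!
# MP_3dbb84_gt, Q1: exact Lagrangian submanifolds of the cotangent bundle of a compact flat manifold which
are thin at the scale of their curvature

Let `N = ℝⁿ / Γ` be any compact flat manifold, let `L` be a closed exact Lagrangian submanifold of `T*N`, let
`K > 0` be a bound for its second fundamental form with respect to the flat metric of `T*N`, and let
`0 < r ≤ π / 2`. Suppose that there are no points `(q, p)`, `(q', p')` of the preimage of `L` in `ℝⁿ × ℝⁿ` with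
`‖q - q'‖ ≤ (2 / K) (1 - cos r)` and `‖p - p'‖ ≥ (2 / K) sin r`. Then `L` is the graph of an exact form, in
particular the image of the zero section under a symplectic diffeomorphism. For `r = π / 2` the condition is
`‖p - p'‖ < 2 / K` for all pairs of points with `‖q - q'‖ ≤ 2 / K`; it holds if `osc(p) K < 2`, but the
condition is local in `q`, and `osc(p) K` may be large. So every counterexample to Arnold's conjecture over a
compact flat manifold has two points with `‖q - q'‖ ≤ 2 / K ≤ ‖p - p'‖`, and similar pairs of points for all
smaller values of `r`.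

(As `r` varies, the condition is also necessary: the graph of `dg` satisfies it if `tan (r / 2) ‖Hess g‖ < 1`.
The constants are the best possible ones for the conclusion that `L` is a graph: a closed curve in `T*S¹` can
contain two arcs of circles of radius `1 / K` with a vertical inflection tangent in the middle. Both remarks
are not formalised.)

The proof. Suppose that `(0, w)`, `‖w‖ = 1`, is tangent to `L` at `z`. Along the geodesic `c` of `L` with
this initial velocity the angle between `c'(t)` and `(0, w)` is at most `K |t|`, so that between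
`t = -r / K` and `t = r / K` the number `⟪p, w⟫` grows by at least `∫ cos (K t) dt = (2 / K) sin r`, and `q`
moves by at most `∫ sin (K |t|) dt = (2 / K) (1 - cos r)`, a contradiction. So `L` is transverse to the fibres.
If two different points of `L` are over the same point of `N`, the difference of the values of a primitive
of `p dq` on `L` at such pairs has a maximum, and there the two points are equal, a contradiction.

All definitions but `IsThin` are in `Pool.Agent.NH28.EL.Dfs`.
-/

namespace Pool.Agent.Results.MP_3dbb84_gt.CurvatureScale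

open Pool.Agent.NH28.EL.D

/-- There are no points `(q, p)`, `(q', p')` of `Λ` with `‖q - q'‖ ≤ (2 / K) (1 - cos r)` and
`‖p - p'‖ ≥ (2 / K) sin r`. -/
def IsThin {n : ℕ} (Λ : Set (T n)) (K r : ℝ) : Prop :=
  ∀ z ∈ Λ, ∀ z' ∈ Λ, ‖z.1 - z'.1‖ ≤ 2 / K * (1 - Real.cos r) → ‖z.2 - z'.2‖ < 2 / K * Real.sin r

/-- Let `Λ` be the preimage in `ℝⁿ × ℝⁿ` of a closed exact Lagrangian submanifold `L` of the cotangent bundle
of the compact flat manifold `ℝⁿ / Γ`, with second fundamental form bounded by `K > 0`, and let
`0 < r ≤ π / 2`. If there are no points `(q, p)`, `(q', p')` of `Λ` with `‖q - q'‖ ≤ (2 / K) (1 - cos r)` and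
`‖p - p'‖ ≥ (2 / K) sin r`, then `L` is the graph of an exact form, and the image of the zero section under a
symplectic diffeomorphism. -/
theorem result {n : ℕ} (Γ : Grp n) (hΓ : IsFlat Γ) (Λ : Set (T n)) (hΛ : IsLagrangian Γ Λ)
    (hE : IsExact Γ Λ) (K r : ℝ) (hK : 0 < K) (hC : HasCurvatureLE Λ K) (hr : 0 < r)
    (hr2 : r ≤ Real.pi / 2) (hT : IsThin Λ K r) : IsGraph Γ Λ ∧ IsImage Γ Λ := by
  have ht := Pool.Agent.NH28.EL.t_LOC n Λ K r hK (curvature hC) hr hr2 hT
  exact ⟨graph (Pool.Agent.NH28.EL.graph_of_transverse (flat hΓ) (lagrangian hΛ) (exact hE) ht),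
    image (Pool.Agent.NH28.EL.t_CORE n Γ (flat hΓ) Λ (lagrangian hΛ) (exact hE) ht)⟩

end Pool.Agent.Results.MP_3dbb84_gt.CurvatureScale
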