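import Mathlib
import Pool.Agent.NH28.QC7

/-!
# Points of degree `r` on the line: an inequality with the discriminant

Let `D` be an arbitrary reduced divisor of degree `q` on the projective line over `ℚ` (its points
need not be rational), `r ≥ 2` and `ε > 0`. A point `x` of degree `r`, with minimal polynomial `f`,
is a rational point of `Sym^r ℙ¹ = ℙ^r`, the point of the coefficients of `f`. There is a proper
closed subset `{F = 0}` of `ℙ^r` (not depending on `S`) such that for every finite set `S` of primes

`∑_{v ∈ S ∪ {∞}} λ_{D,v}(x) + h_K(x) ≤ (r - 2 + ε) h(x) + δ_S(x) / (2 r - 2) + C`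

for all `x` of degree `r` outside `{F = 0}` and `D`, where `δ_S(x)` is the logarithmic discriminant of
the order of `x`, without the primes in `S`; one has `0 ≤ δ_S(x) ≤ (2 r - 2) h(x) + O(1)` and, for
`S = ∅`, `δ_S(x) = d(x) + (2 / r) log ι` with the index `ι` of the order of `x`. For `r = 2` the
right-hand side is `ε h(x) + δ_S(x) / 2 + C`: this is stronger than the conjecture for the points with
`δ_S(x) ≤ 2 d(x)`. If `δ_S` is large, i.e. for most points, the bound is Schmidt's bound
`(r + 1 + ε) h` for the first sum; if `δ_S` is small it is `(r + ε) h`.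

Proof. The hyperplanes `f(α) = 0`, for `α` in `D`, and the discriminant hypersurface, which has
degree `2 r - 2`, are in general position in `ℙ^r`: a form with `r` simple zeros has nonzero
discriminant. The inequality is the theorem of Evertse and Ferretti for these hypersurfaces,
combined with the product formula for the discriminant.
-/

set_option autoImplicit false

namespace Pool.Agent.NH28.Old.DegreeRPointsDiscriminant

open Polynomial

/-- The absolute logarithmic height `(log M(f)) / deg f` of the roots of an irreducible primitive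
`f` (`M` is the Mahler measure). -/
noncomputable def height (f : ℤ[X]) : ℝ :=
  Real.log (f.map (Int.castRingHom ℂ)).mahlerMeasure / f.natDegree

/-- `λ_{D,∞}(x)` for the divisor `D` of degree `q` given by `G`: the average over the conjugates
`z` of `x`, i.e. the roots of `f`, of `log (max(1,|z|)^q / |G(z)|)`. -/
noncomputable def lambdaInf (G : ℤ[X]) (q : ℕ) (f : ℤ[X]) : ℝ :=
  ((f.map (Int.castRingHom ℂ)).roots.map fun z =>
    Real.log (max 1 ‖z‖ ^ q / ‖(G.map (Int.castRingHom ℂ)).eval z‖)).sum / f.natDegree

/-- `λ_{D,p}(x)`, the average over the conjugates `z` of `x` over `ℚ_p` of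
`log (max(1,|z|_p)^q / |G(z)|_p)`; for primitive `f` the sum over the conjugates is
`-log |Res(f,G)|_p`, with `Res` the resultant for the degrees `deg f` and `q`. -/
noncomputable def lambdaP (p : ℕ) (G : ℤ[X]) (q : ℕ) (f : ℤ[X]) : ℝ :=
  (padicValInt p (resultant f G f.natDegree q) : ℝ) * Real.log p / f.natDegree

/-- `δ_S(x)`: the logarithm of the prime-to-`S` part of `|disc f|`, divided by `deg f`. -/
noncomputable def logOrd (S : Finset ℕ) (f : ℤ[X]) : ℝ :=
  (Real.log |(f.discr : ℝ)| - ∑ p ∈ S, (padicValInt p f.discr : ℝ) * Real.log p) / f.natDegree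

/-- Let `D` be the reduced effective divisor of degree `q` on the projective line over `ℚ` given
by `G`, `r ≥ 2` and `ε > 0`. There is a nonzero form `F` in `r + 1` variables over `ℚ` such that
for every finite set `S` of primes there is `C` such that all algebraic numbers `x` of degree `r`
outside the support of `D`, with minimal polynomial `f = a_r T^r + … + a_0`, `F(a_0, …, a_r) ≠ 0`,
satisfy
`∑_{v ∈ S ∪ {∞}} λ_{D,v}(x) + h_K(x) ≤ (r - 2 + ε) h(x) + δ_S(x) / (2 r - 2) + C`,
where `h_K = -2 h`. -/
theorem result (r : ℕ) (hr : 2 ≤ r) (q : ℕ) (G : ℤ[X])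
    (hG : Squarefree (G.map (Int.castRingHom ℚ))) (hGq : G.natDegree ≤ q)
    (hqG : q ≤ G.natDegree + 1) (ε : ℝ) (hε : 0 < ε) :
    ∃ F : MvPolynomial (Fin (r + 1)) ℚ, F ≠ 0 ∧ (∃ t, F.IsHomogeneous t) ∧
      ∀ S : Finset ℕ, (∀ p ∈ S, p.Prime) → ∃ C : ℝ, ∀ (x : ℂ) (f : ℤ[X]),
        Irreducible f → f.natDegree = r → aeval x f = 0 → aeval x G ≠ 0 →
        MvPolynomial.eval (fun k : Fin (r + 1) => ((f.coeff k : ℤ) : ℚ)) F ≠ 0 →
        lambdaInf G q f + ∑ p ∈ S, lambdaP p G q f + (-2) * height f ≤
          (r - 2 + ε) * height f + logOrd S f / (2 * r - 2) + C := by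
  obtain ⟨F, hF, hFh, hmain⟩ := Pool.Agent.NH28.disc_real G hG q r hr (by omega) ε hε
  refine ⟨F, hF, hFh, fun S hS => ?_⟩
  obtain ⟨C, -, hC⟩ := hmain S hS
  refine ⟨C, fun x f hf hd hx hxG hFf => ?_⟩
  have hR := Pool.Agent.NH28.resultant_ne f G q hGq hf (by omega) x hx hxG
  have hsum := Pool.Agent.H990R4.VJ.sum_log_eq f G q hGq hf.ne_zero hR
  rw [hd] at hR hsum
  have h1 := hC f hf hd hR hFf (height f) (lambdaInf G q f) (logOrd S f)
    (fun p => lambdaP p G q f) (by unfold height; rw [hd]; rfl)
    (by unfold lambdaInf; rw [hd, hsum])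
    (fun p => by unfold lambdaP; rw [hd]) (by unfold logOrd; rw [hd])
  have e1 : (r : ℝ) - 2 + ε = (r + ε) + (-2) := by ring
  rw [e1, add_mul]
  linarith

end Pool.Agent.NH28.Old.DegreeRPointsDiscriminant
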