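import Pool.Agent.NH28.EL.Pln
import Pool.Agent.NH28.EL.PUSH
import Pool.Agent.NH28.EL.FOL
import Pool.Agent.NH28.EL.Dfs

set_option autoImplicit false

/-!
# MP_3dbb84_gt, Q1: exact Lagrangian submanifolds of the cotangent bundle of a flat torus which are
transverse to a Lagrangian plane

Let `N = ℝⁿ / Γ` be a flat torus and let `L` be a closed exact Lagrangian submanifold of
`T*N = (ℝⁿ × ℝⁿ) / Γ`. If there is a Lagrangian plane `P` in `ℝⁿ × ℝⁿ` which is transverse to all tangent
spaces of `L`, then `L` is the image of the zero section under a symplectic diffeomorphism of `T*N`. So the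
tangent spaces of a counterexample to Arnold's conjecture over a torus meet every Lagrangian plane. There
is no other condition: the dimension is arbitrary, and `L` may have caustics of every kind (with respect to
the projection to `N`), be far away from the zero section and have any topology.

The proof. First `P` has no common vector with the zero section: if `(ξ, 0) ∈ P` then `(ξ, 0)` is tangent to
`L` at a point where `⟪p, ξ⟫` has a maximum. Hence `P = {(-S w, w)}` with a symmetric matrix `S`, and the
symplectic diffeomorphism `(q, p) ↦ (q + S p, p)` of `T*N` moves `L` to an exact Lagrangian submanifold `L'`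
which is transverse to the fibres. If two points `(x, p) ≠ (x, p')` of `L'` are over the same point, the
difference of the values of a primitive of `p dq` on `L'` at such pairs has a maximum, and there `p = p'`, a
contradiction. So `L'` is the graph of an exact form.

All definitions are in `Pool.Agent.NH28.EL.Dfs`.
-/

namespace Pool.Agent.Results.MP_3dbb84_gt.LagrangianPlane

open Pool.Agent.NH28.EL.D

/-- Let `N = ℝⁿ / Γ` be a flat torus (`Γ` is a discrete cocompact group of isometries which acts freely
and all elements of which are translations), and let `Λ` be the preimage in `ℝⁿ × ℝⁿ` of a closed exact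
Lagrangian submanifold `L` of `T*N`. Let `P` be a Lagrangian plane of `ℝⁿ × ℝⁿ` which contains no tangent
vector of `L` except `0`. Then `L` is the image of the zero section under a symplectic diffeomorphism. -/
theorem result {n : ℕ} (Γ : Grp n) (hΓ : IsFlat Γ) (hT : IsTranslations Γ) (Λ : Set (T n))
    (hΛ : IsLagrangian Γ Λ) (hE : IsExact Γ Λ) (P : Submodule ℝ (T n)) (hP : IsLagrangianPlane P)
    (ht : IsTransverse Λ P) : IsImage Γ Λ :=
  image (Pool.Agent.NH28.EL.plane Pool.Agent.NH28.EL.t_PUSH Pool.Agent.NH28.EL.t_FOL (flat hΓ) hT
    (lagrangian hΛ) (exact hE) P hP.1 hP.2 fun z hz a ha h => ht z hz a ha ((tangent_iff Λ z a).1 h))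

end Pool.Agent.Results.MP_3dbb84_gt.LagrangianPlane
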