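import Pool.Agent.NH28.EL.PAIR
import Pool.Agent.NH28.EL.Dfs

set_option autoImplicit false

/-!
# MP_3dbb84_gt, Q1: pairs of points of an exact Lagrangian submanifold in a fibre

Let `N = ℝⁿ / Γ` be any compact flat manifold and let `L` be a closed exact Lagrangian submanifold of `T*N`. For
a point `z` of `L` let `V_z` be the space of the vertical tangent vectors `(0, w)` of `L` at `z`, so that the
caustics of `L` come from the points with `V_z ≠ 0`. If `L` meets some fibre more than once, then there are
two different points `z = (q, p)`, `z' = (q, p')` of `L` in a fibre such that `V_z ∩ V_z' ≠ 0` or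
`p - p' ∈ V_z + V_z'`. In other words: if there is no such pair, then the projection `L → N` is injective
(hence a homeomorphism, by the invariance of domain, which is not formalised).

No transversality is assumed: `L` may be tangent to the fibres at any number of points. The case
`V_z = 0` for all `z`, where `L` is a smooth section, is folklore. No symplectic diffeomorphism is constructed
here.

The proof. Let `f` be a primitive of `p dq` on `L`. On the compact set of the pairs of points of `L` in a fibre
the function `f(z) - f(z')` has a maximum, and if there are pairs with `z ≠ z'`, the maximum is also attained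
at such a pair (if it is zero, then `f(z) = f(z')` for all pairs). There the theorem on Lagrange multipliers
gives `(ξ, c) ≠ 0` with `ξ + c p` orthogonal to the image of `T_z L` in `ℝⁿ`, that is in `V_z`, and
`ξ + c p' ∈ V_z'`.

The definitions are in `Pool.Agent.NH28.EL.Dfs` and below.
-/

namespace Pool.Agent.Results.MP_3dbb84_gt.PairsInFibres

open Pool.Agent.NH28.EL.D

variable {n : ℕ}

/-- `w ∈ V_z`: the vector `(0, w)` is tangent to `Λ` at `z` -/
def Vertical (Λ : Set (T n)) (z : T n) (w : E n) : Prop := IsTangent Λ z (0, w)

/-- There are no two different points `z = (q, p)`, `z' = (q, p')` of `Λ` with `V_z ∩ V_z' ≠ 0` or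
`p - p' ∈ V_z + V_z'`. (The sum is written with the difference of two vectors.) -/
def NoPair (Λ : Set (T n)) : Prop :=
  ∀ z ∈ Λ, ∀ z' ∈ Λ, z.1 = z'.1 → z ≠ z' → ∀ w w' : E n, Vertical Λ z w → Vertical Λ z' w' →
    (w = w' → w = 0) ∧ w - w' ≠ z.2 - z'.2

/-- Let `Λ` be the preimage in `ℝⁿ × ℝⁿ` of a closed exact Lagrangian submanifold `L` of the cotangent bundle
of the compact flat manifold `ℝⁿ / Γ`. If there are no two different points `z = (q, p)`, `z' = (q, p')` of
`Λ` with `V_z ∩ V_z' ≠ 0` or `p - p' ∈ V_z + V_z'`, then `L` meets each fibre at most once. -/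
theorem result {n : ℕ} (Γ : Grp n) (hΓ : IsFlat Γ) (Λ : Set (T n)) (hΛ : IsLagrangian Γ Λ)
    (hE : IsExact Γ Λ) (hS : NoPair Λ) : ∀ z ∈ Λ, ∀ z' ∈ Λ, z.1 = z'.1 → z = z' :=
  Pool.Agent.NH28.EL.t_PAIR (flat hΓ) (lagrangian hΛ) (exact hE)
    fun z hz z' hz' h1 h2 w w' hw hw' => hS z hz z' hz' h1 h2 w w' ((tangent_iff Λ z _).1 hw)
      ((tangent_iff Λ z' _).1 hw')

end Pool.Agent.Results.MP_3dbb84_gt.PairsInFibres
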