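import Mathlib
import Pool.Agent.NH28.QD11

/-!
# Quadratic points on the line: Vojta's inequality with the discriminant of the order

Let `D` be an arbitrary reduced divisor of degree `q` on the projective line over `ℚ` (its points
need not be rational) and `S` a finite set of primes. For a quadratic number `x` with minimal
polynomial `f = a T² + b T + c` let `O_f = ℤ[a x]` be its order, of discriminant
`disc f = b² - 4 a c = ι² D_K`, where `ι` is the index of `O_f` in the ring of integers of
`K = ℚ(x)`. For **all** quadratic `x`, with no exceptional set at all,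

`∑_{v ∈ S ∪ {∞}} λ_{D,v}(x) + h_K(x) - d(x) ≤ ε h(x) + log ι_S(x) + R_S(x) + C`,

where `d(x) + log ι_S(x)` is the logarithmic discriminant of the order without the primes of `S`
and `R_S(x) = min (½ ∑_v max (0, e_v - λ_v), ⅓ ∑_v max (0, λ_v - e_v))` compares the local heights
`λ_v` with the closeness `e_v` of the two conjugates of `x` to each other. For `S = ∅` one has
`R_S = 0`: Vojta's inequality with respect to the infinite place holds for all quadratic points
with the single change that the discriminant of the field is replaced by that of the order; it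
holds unchanged for all `x` for which `O_f` is the maximal order.

Proof. The coefficient vector `z` of `f` is a rational point of `ℙ²`, the local heights are those of
lines tangent to the conic `disc = 0`. At each place one chooses the three linear forms `f(α)`,
the polar form of `f` at `(α, β)`, and `f(β)`, where `α`, `β` are the two points of `D` next to
the conjugates, or `β` is a point in general position; the identity
`B(α,β)² = disc f · (α - β)² + 4 f(α) f(β)` shows that they are small enough. Schlickewei's subspace
theorem gives `∑_v (λ_v + ½ min (e_v, λ_v)) ≤ (3 + ε) h` outside finitely many rational lines; on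
a rational line Roth's theorem for the points of the line on which `disc f · ∏ f(α)` vanishes,
each with multiplicity at most two, gives `∑_v (λ_v + e_v) ≤ (4 + ε) h`. The product formula gives
`∑_v e_v ≤ 2 h`.
-/

set_option autoImplicit false

namespace Pool.Agent.Results.MP_651af7_nt.QuadraticPointsOrderDiscriminant

open Polynomial IntermediateField

/-- The absolute logarithmic height `(log M(f)) / deg f` of the roots of an irreducible primitive
`f` (`M` is the Mahler measure). -/
noncomputable def height (f : ℤ[X]) : ℝ :=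
  Real.log (f.map (Int.castRingHom ℂ)).mahlerMeasure / f.natDegree

/-- `λ_{D,∞}(x)` for the divisor `D` of degree `q` given by `G`: the average over the conjugates
`z` of `x`, i.e. the roots of `f`, of `log (max(1,|z|)^q / |G(z)|)`. -/
noncomputable def lambdaInf (G : ℤ[X]) (q : ℕ) (f : ℤ[X]) : ℝ :=
  ((f.map (Int.castRingHom ℂ)).roots.map fun z =>
    Real.log (max 1 ‖z‖ ^ q / ‖(G.map (Int.castRingHom ℂ)).eval z‖)).sum / f.natDegree

/-- `λ_{D,p}(x)`, the average over the conjugates `z` of `x` over `ℚ_p` of
`log (max(1,|z|_p)^q / |G(z)|_p)`; for primitive `f` the sum over the conjugates is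
`-log |Res(f,G)|_p`, with `Res` the resultant for the degrees `deg f` and `q`. -/
noncomputable def lambdaP (p : ℕ) (G : ℤ[X]) (q : ℕ) (f : ℤ[X]) : ℝ :=
  (padicValInt p (resultant f G f.natDegree q) : ℝ) * Real.log p / f.natDegree

open Classical in
/-- The logarithmic discriminant `d(x)` of the field `ℚ(x)`. -/
noncomputable def logDisc (x : ℂ) : ℝ :=
  if _ : NumberField ℚ⟮x⟯ then
    Real.log |(NumberField.discr ℚ⟮x⟯ : ℝ)| / Module.finrank ℚ ℚ⟮x⟯ else 0

/-- `e_∞(x)`, the closeness of the conjugates of `x` at the infinite place,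
`((2 deg f - 2) log M(f) - log |disc f|) / deg f`. For `f = a (T - z₁)(T - z₂)` this is
`log (max(1,|z₁|) max(1,|z₂|) / |z₁ - z₂|)`. -/
noncomputable def closeInf (f : ℤ[X]) : ℝ :=
  ((2 * f.natDegree - 2) * Real.log (f.map (Int.castRingHom ℂ)).mahlerMeasure -
    Real.log |(f.discr : ℝ)|) / f.natDegree

/-- `e_p(x)`, the closeness of the conjugates of `x` at `p`, `-log |disc f|_p / deg f` (for
primitive `f`). -/
noncomputable def closeP (p : ℕ) (f : ℤ[X]) : ℝ :=
  (padicValInt p f.discr : ℝ) * Real.log p / f.natDegree

/-- `log ι_S(x)`: the logarithm of the prime-to-`S` part of `|disc f|`, divided by `deg f`, minus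
`d(x)`. For `S = ∅` and `deg f = 2` this is the logarithm of the index of the order `O_f` in the
maximal order of `ℚ(x)`; it is zero if `O_f` is maximal. -/
noncomputable def logIndex (S : Finset ℕ) (x : ℂ) (f : ℤ[X]) : ℝ :=
  (Real.log |(f.discr : ℝ)| - ∑ p ∈ S, (padicValInt p f.discr : ℝ) * Real.log p) / f.natDegree -
    logDisc x

/-- `∑_{v ∈ S ∪ {∞}} max (0, e_v - λ_v)` -/
noncomputable def excessClose (G : ℤ[X]) (q : ℕ) (S : Finset ℕ) (f : ℤ[X]) : ℝ :=
  max 0 (closeInf f - lambdaInf G q f) + ∑ p ∈ S, max 0 (closeP p f - lambdaP p G q f)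

/-- `∑_{v ∈ S ∪ {∞}} max (0, λ_v - e_v)` -/
noncomputable def excessLambda (G : ℤ[X]) (q : ℕ) (S : Finset ℕ) (f : ℤ[X]) : ℝ :=
  max 0 (lambdaInf G q f - closeInf f) + ∑ p ∈ S, max 0 (lambdaP p G q f - closeP p f)

/-- **Vojta's inequality for all quadratic points, with the discriminant of the order.** Let `D`
be the reduced effective divisor of degree `q ≥ 1` on the projective line over `ℚ` given by `G`,
`S` a finite set of primes, `ε > 0`. Then there is a constant `C` such that for all quadratic
numbers `x` outside the support of `D`, with minimal polynomial `f`,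
`∑_{v ∈ S ∪ {∞}} λ_{D,v}(x) + h_K(x) - d(x) ≤ ε h(x) + log ι_S(x) + R + C`, where `h_K = -2 h` and
`R = min (½ ∑_v max (0, e_v - λ_v), ⅓ ∑_v max (0, λ_v - e_v))`, which is zero for `S = ∅`. -/
theorem result (q : ℕ) (hq : 1 ≤ q) (G : ℤ[X])
    (hG : Squarefree (G.map (Int.castRingHom ℚ))) (hGq : G.natDegree ≤ q)
    (hqG : q ≤ G.natDegree + 1) (S : Finset ℕ) (hS : ∀ p ∈ S, p.Prime) (ε : ℝ) (hε : 0 < ε) :
    ∃ C : ℝ, ∀ (x : ℂ) (f : ℤ[X]), Irreducible f → f.natDegree = 2 → aeval x f = 0 →
      aeval x G ≠ 0 →
      lambdaInf G q f + ∑ p ∈ S, lambdaP p G q f + (-2) * height f - logDisc x ≤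
        ε * height f + logIndex S x f +
          min (excessClose G q S f / 2) (excessLambda G q S f / 3) + C := by
  obtain ⟨C, -, hC⟩ := Pool.Agent.NH28.quad_real G hG q hq (by omega) S hS ε hε
  refine ⟨C, fun x f hf hd hx hxG => ?_⟩
  have hR := Pool.Agent.NH28.resultant_ne f G q hGq hf (by omega) x hx hxG
  have hsum := Pool.Agent.H990R4.VJ.sum_log_eq f G q hGq hf.ne_zero hR
  rw [hd] at hR hsum
  have e1 : height f = Real.log (Pool.Agent.H990R4.VJ.mm f) / 2 := by
    unfold height; rw [hd]; rfl
  have e2 : lambdaInf G q f = (q * Real.log (Pool.Agent.H990R4.VJ.mm f) -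
      Real.log |((resultant f G 2 q : ℤ) : ℝ)|) / 2 := by
    unfold lambdaInf; rw [hd, hsum]; norm_num
  have e3 : closeInf f = (2 * Real.log (Pool.Agent.H990R4.VJ.mm f) -
      Real.log |((f.discr : ℤ) : ℝ)|) / 2 := by
    unfold closeInf
    rw [hd]
    have : (2 * ((2 : ℕ) : ℝ) - 2) = 2 := by norm_num
    rw [this]
    norm_num [Pool.Agent.H990R4.VJ.mm]
  have h1 := hC f hf hd hR (height f) (lambdaInf G q f) (closeInf f)
    (fun p => lambdaP p G q f) (fun p => closeP p f) e1 e2 e3
    (fun p => by unfold lambdaP; rw [hd]; norm_num)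
    (fun p => by unfold closeP; rw [hd]; norm_num)
  have e4 : logIndex S x f + logDisc x = 2 * height f - (closeInf f + ∑ p ∈ S, closeP p f) := by
    unfold logIndex closeP
    rw [e1, e3, hd, ← Finset.sum_div]
    push_cast
    ring
  unfold excessClose excessLambda
  linarith

end Pool.Agent.Results.MP_651af7_nt.QuadraticPointsOrderDiscriminant
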