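import Pool.Agent.NH28.T2

set_option autoImplicit false

/-!
# The subspace theorem on projective varieties for the points of bounded degree

`X = {G = 0}` is an integral closed subscheme of dimension `ν ≥ 1` of `ℙ^(n-1)` over a number field
`K`, and `D i = X ∩ {F i = 0}`, `i < q`, are hypersurface sections of degrees `d i`, no `ν + 1` of
which have a common point. Let `S` be ANY finite set of primes of `K` and `r ≥ 1`. The points `x` of
`X` of degree at most `r` over `K`, off a proper closed subset which does not depend on `S`, satisfy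
`∑ i, m_{S, D i}(x) / d i ≤ (c(ν, r) + ε) h(x) + C`, where `m_{S, D i}` is the sum of the local
heights over all archimedean places and all places over `S` of the residue field, and
`c(ν, r) = (ν + 1) / (1 - ν (r - 1) (1 - (1 - 1 / r) ^ (1 / ν)))`.

`c(ν, 1) = ν + 1` (Evertse and Ferretti) and `c(1, r) = 2 r` (Wirsing). The constant `c(ν, r)` does
not depend on the number of places.

Method: the subspace theorem (in Vojta's form, with exceptional hyperplanes independent of `S`) for
the `K`-rational points `(Tr (θ s_j(x)))_j`, where the `s_j` are a basis of the forms of large degree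
on `X` and `θ` is an element of the residue field with prescribed sizes at all the places above `S`,
found with Minkowski's theorem; at each place of `K` the bases are adapted to the filtrations at all
the places above it at once.
-/

namespace Pool.Agent.Results.MP_651af7_nt.SubspaceBoundedDegree

open NumberField IsDedekindDomain

/-- The point with homogeneous coordinates `x` lies on the projective scheme `{G = 0}`. -/
def On {K L : Type} [Field K] [Field L] [Algebra K L] {m n : ℕ}
    (G : Fin m → MvPolynomial (Fin n) K) (x : Fin n → L) : Prop :=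
  ∀ k, MvPolynomial.aeval x (G k) = 0

/-- The places of a number field: the archimedean places and the primes. -/
abbrev Place (L : Type) [Field L] [NumberField L] : Type :=
  InfinitePlace L ⊕ HeightOneSpectrum (𝓞 L)

/-- The place is archimedean or lies over a prime in `S`. -/
def Above {K L : Type} [Field K] [NumberField K] [Field L] [NumberField L] [Algebra K L]
    (S : Finset (HeightOneSpectrum (𝓞 K))) : Place L → Prop
  | Sum.inl _ => True
  | Sum.inr w => ∃ v ∈ S, w.asIdeal.LiesOver v.asIdeal

/-- The absolute value of a place. At a prime it is the normalised one, with the value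
`(N v) ^ (-ord_v x)` at `x ≠ 0`. -/
noncomputable def absv {L : Type} [Field L] [NumberField L] : Place L → L → ℝ
  | Sum.inl w => fun x => w x
  | Sum.inr v => fun x => FinitePlace.mk v x

/-- The exponent of the absolute value of a place in the product formula: `1` at real places and at
primes, `2` at complex places. -/
noncomputable def weight {L : Type} [Field L] [NumberField L] : Place L → ℝ
  | Sum.inl w => w.mult
  | Sum.inr _ => 1

/-- The local height of the hypersurface `F = 0` of degree `d` at the point with homogeneous
coordinates `x`. -/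
noncomputable def weil {K L : Type} [Field K] [Field L] [NumberField L] [Algebra K L] {n : ℕ}
    (p : Place L) (d : ℕ) (F : MvPolynomial (Fin n) K) (x : Fin n → L) : ℝ :=
  Real.log ((⨆ j, absv p (x j)) ^ d / absv p (MvPolynomial.aeval x F))

/-- The sum over `i` of `1 / d i` times the proximity function of `F i = 0` at `x`, in absolute
normalisation, for the finite set `T` of places of `L`. -/
noncomputable def proximity {K L : Type} [Field K] [Field L] [NumberField L] [Algebra K L]
    {n q : ℕ} (T : Finset (Place L)) (F : Fin q → MvPolynomial (Fin n) K) (d : Fin q → ℕ)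
    (x : Fin n → L) : ℝ :=
  (∑ p ∈ T, weight p * ∑ i, weil p (d i) (F i) x / d i) / Module.finrank ℚ L

/-- The absolute logarithmic height. -/
noncomputable def height {L : Type} [Field L] [NumberField L] {n : ℕ} (x : Fin n → L) : ℝ :=
  Height.logHeight x / Module.finrank ℚ L

/-- The residue field over `K` of the point with homogeneous coordinates `x` in `L` is `L`. -/
def ResidueField (K : Type) {L : Type} [Field K] [Field L] [Algebra K L] {n : ℕ}
    (x : Fin n → L) : Prop :=
  IntermediateField.adjoin K {z : L | ∃ i j, z = x i / x j} = ⊤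

/-- The constant `c(ν, r) = (ν + 1) / (1 - ν (r - 1) (1 - (1 - 1 / r) ^ (1 / ν)))`. -/
noncomputable def c (ν r : ℕ) : ℝ :=
  (ν + 1) / (1 - ν * (r - 1) * (1 - (1 - 1 / (r : ℝ)) ^ (1 / (ν : ℝ))))

/-- Let `X = {G = 0}` be an integral closed subscheme of dimension `ν ≥ 1` of the projective space
`ℙ^(n-1)` over a number field `K`, let `D i = X ∩ {F i = 0}`, `i < q`, be hypersurface sections
of degrees `d i ≥ 1`, no `ν + 1` of which have a common point, and let `r ≥ 1`. For every `ε > 0`
there is a form `Z` over `K`, not vanishing identically on `X`, such that for every finite set `S` of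
primes of `K` there is `C` with `∑ i, m_{T, D i}(x) / d i ≤ (c(ν, r) + ε) h(x) + C` for every point
`x` of `X` of degree at most `r` over `K` (with residue field `L`) with `Z(x) ≠ 0` which is not in
any `D i`, and every finite set `T` of places of `L` which are archimedean or lie over `S`. -/
theorem result (K : Type) [Field K] [NumberField K] (m n q ν r : ℕ) (hν : 1 ≤ ν) (hr : 1 ≤ r)
    (G : Fin m → MvPolynomial (Fin n) K) (g : Fin m → ℕ) (hG : ∀ k, (G k).IsHomogeneous (g k))
    (hX : (Ideal.span (Set.range G)).IsPrime)
    (hdim : Algebra.trdeg K (MvPolynomial (Fin n) K ⧸ Ideal.span (Set.range G)) = ν + 1)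
    (F : Fin q → MvPolynomial (Fin n) K) (d : Fin q → ℕ) (hd : ∀ i, 1 ≤ d i)
    (hF : ∀ i, (F i).IsHomogeneous (d i))
    (hgp : ∀ (e : Fin (ν + 1) ↪ Fin q) (L : Type) [Field L] [Algebra K L] (x : Fin n → L),
      On G x → (∀ k, MvPolynomial.aeval x (F (e k)) = 0) → x = 0)
    (ε : ℝ) (hε : 0 < ε) :
    ∃ Z : MvPolynomial (Fin n) K, Z ∉ Ideal.span (Set.range G) ∧ (∃ t, Z.IsHomogeneous t) ∧
      ∀ S : Finset (HeightOneSpectrum (𝓞 K)), ∃ C : ℝ,
        ∀ (L : Type) [Field L] [NumberField L] [Algebra K L], Module.finrank K L ≤ r →
          ∀ x : Fin n → L, x ≠ 0 → ResidueField K x → On G x →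
            (∀ i, MvPolynomial.aeval x (F i) ≠ 0) → MvPolynomial.aeval x Z ≠ 0 →
            ∀ T : Finset (Place L), (∀ p ∈ T, Above S p) →
              proximity T F d x ≤ (c ν r + ε) * height x + C := by
  classical
  have hweil : ∀ (L : Type) [Field L] [NumberField L] [Algebra K L] (p : Place L) (e : ℕ)
      (H : MvPolynomial (Fin n) K) (x : Fin n → L), weil p e H x =
      Pool.Agent.W180.OP.lam (Pool.Agent.W180.OP.av p) e (Pool.Agent.W180.OP.bc L H) x := by
    intro L _ _ _ p e H x
    unfold weil Pool.Agent.W180.OP.lam
    rw [Pool.Agent.W180.OP.eval_bc]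
    cases p <;> rfl
  have hw : ∀ (L : Type) [Field L] [NumberField L] (p : Place L),
      weight p = Pool.Agent.W180.OP.wt p := by
    intro L _ _ p
    cases p <;> rfl
  have hprox : ∀ (L : Type) [Field L] [NumberField L] [Algebra K L] (T : Finset (Place L))
      (x : Fin n → L), proximity T F d x = (∑ p ∈ T, Pool.Agent.W180.OP.wt p * ∑ i,
      Pool.Agent.W180.OP.lam (Pool.Agent.W180.OP.av p) (d i)
        (Pool.Agent.W180.OP.bc L (F i)) x / d i) / Module.finrank ℚ L := by
    intro L _ _ _ T x
    unfold proximity
    congr 1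
    refine Finset.sum_congr rfl fun p _ => ?_
    rw [hw]
    congr 1
    exact Finset.sum_congr rfl fun i _ => by rw [hweil]
  have hc : (ν : ℝ) + 1 ≤ c ν r := Pool.Agent.NH28.one_le_cst hν hr
  rcases Nat.lt_or_ge q (ν + 1) with hq | hq
  · -- few divisors
    choose C hC0 hC using fun i => Pool.Agent.W180.TP.liou_u (F i) (d i) (hF i)
    refine ⟨1, fun h => hX.ne_top ((Ideal.eq_top_iff_one _).2 h), ⟨0,
      MvPolynomial.isHomogeneous_one _ _⟩, fun S => ⟨∑ i, C i, ?_⟩⟩
    intro L _ _ _ _ x hx _ hGx hFx _ T _
    have hN : (0 : ℝ) < Module.finrank ℚ L := by exact_mod_cast Module.finrank_pos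
    have hh := Height.logHeight_nonneg x
    have h1 : ∀ i, ∑ p ∈ T, Pool.Agent.W180.OP.wt p *
        (Pool.Agent.W180.OP.lam (Pool.Agent.W180.OP.av p) (d i)
          (Pool.Agent.W180.OP.bc L (F i)) x / d i) ≤
          Height.logHeight x + C i * Module.finrank ℚ L := by
      intro i
      have hdi : (1 : ℝ) ≤ d i := by exact_mod_cast hd i
      have hdi0 : (0 : ℝ) < d i := by linarith
      have h2 := hC i L T x hx (hFx i)
      have h3 : ∑ p ∈ T, Pool.Agent.W180.OP.wt p *
        (Pool.Agent.W180.OP.lam (Pool.Agent.W180.OP.av p) (d i)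
          (Pool.Agent.W180.OP.bc L (F i)) x / d i) ≤
          (d i * Height.logHeight x + C i * Module.finrank ℚ L) / d i := by
        rw [le_div_iff₀ hdi0]
        refine le_trans (le_of_eq ?_) ((Finset.sum_le_sum fun p _ =>
          mul_le_mul_of_nonneg_left (le_max_right _ _)
            (Pool.Agent.W180.OP.wt_nonneg p)).trans h2)
        rw [Finset.sum_mul]
        refine Finset.sum_congr rfl fun p _ => ?_
        field_simp
      refine h3.trans ?_
      rw [add_div, mul_div_cancel_left₀ _ hdi0.ne']
      refine add_le_add le_rfl ?_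
      exact div_le_self (mul_nonneg (hC0 i) hN.le) hdi
    rw [hprox, height, div_le_iff₀ hN]
    have h2 : ∑ p ∈ T, Pool.Agent.W180.OP.wt p * ∑ i,
        Pool.Agent.W180.OP.lam (Pool.Agent.W180.OP.av p) (d i)
          (Pool.Agent.W180.OP.bc L (F i)) x / d i ≤
        ∑ i, (Height.logHeight x + C i * Module.finrank ℚ L) := by
      refine le_trans (le_of_eq ?_) (Finset.sum_le_sum fun i _ => h1 i)
      rw [Finset.sum_comm]
      refine Finset.sum_congr rfl fun p _ => ?_
      rw [Finset.mul_sum]
    rw [Finset.sum_add_distrib, Finset.sum_const, Finset.card_univ, Fintype.card_fin,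
      nsmul_eq_mul, ← Finset.sum_mul] at h2
    refine h2.trans ?_
    have e1 : ((c ν r + ε) * (Height.logHeight x / Module.finrank ℚ L) +
        ∑ i, C i) * Module.finrank ℚ L =
        (c ν r + ε) * Height.logHeight x + (∑ i, C i) * Module.finrank ℚ L := by
      field_simp
    rw [e1]
    refine add_le_add (mul_le_mul_of_nonneg_right ?_ hh) le_rfl
    have h3 : (q : ℝ) ≤ ν + 1 := by exact_mod_cast hq.le
    linarith
  · obtain ⟨Z, hZ, hZh, hmain⟩ := Pool.Agent.NH28.t2 hν hr hq G g hG hX
      (by rw [hdim]; push_cast; rfl) F d hd hF (fun e L _ _ x h1 h2 => hgp e L x h1 h2) ε hε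
    refine ⟨Z, hZ, hZh, fun S => ?_⟩
    obtain ⟨C, hC0, hC⟩ := hmain (Finset.univ.image Sum.inl ∪ S.image Sum.inr)
    refine ⟨C, ?_⟩
    intro L _ _ _ hrL x hx hres hGx hFx hZx T hT
    have hN : (1 : ℝ) ≤ Module.finrank ℚ L := by
      exact_mod_cast (Module.finrank_pos : 0 < Module.finrank ℚ L)
    have hN0 : (0 : ℝ) < Module.finrank ℚ L := by linarith
    have h1 := hC L hrL x hx hGx hres hZx hFx T (by
      intro w hw
      have h2 := hT w hw
      cases w with
      | inl w =>
        refine ⟨Sum.inl (w.comap (algebraMap K L)), ?_, rfl⟩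
        exact Finset.mem_union_left _ (Finset.mem_image_of_mem _ (Finset.mem_univ _))
      | inr w =>
        obtain ⟨v, hv, hvw⟩ := h2
        exact ⟨Sum.inr v, Finset.mem_union_right _ (Finset.mem_image_of_mem _ hv), hvw⟩)
    rw [hprox, height, div_le_iff₀ hN0]
    have e1 : ((c ν r + ε) * (Height.logHeight x / Module.finrank ℚ L) + C) *
        Module.finrank ℚ L = (c ν r + ε) * Height.logHeight x + C * Module.finrank ℚ L := by
      field_simp
    rw [e1]
    have h2 : C ≤ C * Module.finrank ℚ L := le_mul_of_one_le_right hC0 hN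
    have h3 : (Pool.Agent.NH28.cst ν r + ε) * Height.logHeight x =
      (c ν r + ε) * Height.logHeight x := rfl
    linarith

end Pool.Agent.Results.MP_651af7_nt.SubspaceBoundedDegree
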